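import Pool.Agent.Lib.MP_606be1_nt.CX.Main

namespace Pool.Agent.Results.MP_606be1_nt.ComplexFormula

/-- For complex bases, the number of solutions (in `ℕ∞`) is the number of solutions that are best
approximations plus a natural number equal to the main term up to `O(log x)`. -/
theorem result (α β : ℂ) (hα : 1 < ‖α‖) (hβ : 1 < ‖β‖) :
    ∃ C : ℝ, ∀ᶠ x : ℝ in Filter.atTop, ∃ k : ℕ,
      {p : ℕ × ℕ | ‖α ^ p.1 - β ^ p.2‖ ≤ x}.encard =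
        {p : ℕ × ℕ | ‖α ^ p.1 - β ^ p.2‖ ≤ x ∧ 1 ≤ p.1 ∧ ∀ n m : ℕ, 1 ≤ n → n ≤ p.1 →
          ‖Complex.log (α ^ p.1 / β ^ p.2)‖ ≤ ‖Complex.log (α ^ n / β ^ m)‖}.encard + k ∧
      |(k : ℝ) - Real.log x ^ 2 / (Real.log ‖α‖ * Real.log ‖β‖)| ≤ C * Real.log x :=
  Pool.Agent.Lib.MP_606be1_nt.CX.formulaC hα hβ

end Pool.Agent.Results.MP_606be1_nt.ComplexFormula
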