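import Pool.Agent.Lib.MP_606be1_nt.SC.Main

namespace Pool.Agent.Results.MP_606be1_nt.Spectrum

/-- Every nondecreasing function occurs, up to `O(log x)` and a dilation, as the excess of the
number of solutions over the main term, for a base on any given arc `ζ * exp (ξ * B)`. -/
theorem result (β B ζ : ℂ) (hβ : 1 < ‖β‖) (hB : Complex.exp B = β) (hζ : IsOfFinOrder ζ)
    (s t : ℝ) (hs : 0 ≤ s) (hst : s < t) (F : ℝ → ℕ) (hF : Monotone F) :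
    ∃ (ξ : ℝ) (α : ℂ), s < ξ ∧ ξ < t ∧ α = ζ * Complex.exp ((ξ : ℂ) * B) ∧
      ∃ C : ℝ, 1 ≤ C ∧ ∀ᶠ x : ℝ in Filter.atTop, ∃ k : ℕ,
        {p : ℕ × ℕ | ‖α ^ p.1 - β ^ p.2‖ ≤ x}.encard = k ∧
        (F (x / C) : ℝ) - C * Real.log x ≤
          k - Real.log x ^ 2 / (Real.log ‖α‖ * Real.log ‖β‖) ∧
        (k : ℝ) - Real.log x ^ 2 / (Real.log ‖α‖ * Real.log ‖β‖) ≤
          F (C * x) + C * Real.log x := by
  obtain ⟨ξ, h1, h2, h3⟩ := Pool.Agent.Lib.MP_606be1_nt.SC.spectrumC hβ hB hζ hs hst F hF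
  exact ⟨ξ, _, h1, h2, rfl, h3⟩

end Pool.Agent.Results.MP_606be1_nt.Spectrum
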