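import Pool.Agent.Lib.MP_606be1_nt.TH.CxLow

namespace Pool.Agent.Results.MP_606be1_nt.Threshold

open Pool.Agent.Lib.MP_606be1_nt Filter

/-- The exact threshold for complex bases: a lower bound `exp (ψ n)` for the differences forces
the asymptotic formula for every base in `S` if and only if `ψ (tw k) / sqrt k` tends to
infinity. Here `S` is any set of bases containing an arc `ζ * exp (ξ * B)`, `s < ξ < t`. -/
theorem result (β B ζ : ℂ) (hβ : 1 < ‖β‖) (hB : Complex.exp B = β) (hζ : IsOfFinOrder ζ)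
    (s t : ℝ) (hst : s < t) (S : Set ℂ) (hS : ∀ α ∈ S, 1 < ‖α‖)
    (harc : ∀ ξ : ℝ, s < ξ → ξ < t → ζ * Complex.exp ((ξ : ℂ) * B) ∈ S) (ψ : ℕ → ℝ)
    (hψ : Monotone ψ) (ho : Tendsto (fun n : ℕ => ψ n / (n : ℝ)) atTop (nhds 0)) :
    (∀ α ∈ S,
      (∀ᶠ n : ℕ in atTop, ∀ m : ℕ, Real.exp (ψ n) ≤ ‖α ^ n - β ^ m‖) →
      Asymptotics.IsEquivalent atTop
        (fun x : ℝ => (({p : ℕ × ℕ | ‖α ^ p.1 - β ^ p.2‖ ≤ x}.ncard : ℕ) : ℝ))
        (fun x : ℝ => Real.log x ^ 2 / (Real.log ‖α‖ * Real.log ‖β‖))) ↔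
    Tendsto (fun k : ℕ => ψ (tw k) / Real.sqrt (k : ℝ)) atTop atTop :=
  TH.thresholdC hβ hB hζ hst hS harc hψ ho

end Pool.Agent.Results.MP_606be1_nt.Threshold
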