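import Pool.Agent.Lib.MP_606be1_nt.TR.Main

namespace Pool.Agent.Results.MP_606be1_nt.Truncated

open Pool.Agent.Lib.MP_606be1_nt

/-- With differences below `δ` and exponents above `T` left out, the count is the main term up to
`O(log (x / δ) + k)` for every cut-off `T` below the tower of height `k`, with no hypothesis on
the bases. -/
theorem result (α β : ℂ) (hα : 1 < ‖α‖) (hβ : 1 < ‖β‖) :
    ∃ C : ℝ, ∀ (x δ : ℝ) (T k : ℕ), 3 ≤ x → 0 < δ → δ ≤ 1 → x ≤ ‖α‖ ^ T → T ≤ tw k →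
      ∃ N : ℕ,
        {p : ℕ × ℕ | p.1 ≤ T ∧ δ ≤ ‖α ^ p.1 - β ^ p.2‖ ∧ ‖α ^ p.1 - β ^ p.2‖ ≤ x}.encard = N ∧
        |(N : ℝ) - Real.log x ^ 2 / (Real.log ‖α‖ * Real.log ‖β‖)| ≤
          C * (Real.log (x / δ) + k) :=
  TR.truncated hα hβ

end Pool.Agent.Results.MP_606be1_nt.Truncated
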